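import Pool.Agent.helper90.IV.Spec

/-!
# Row LN of MP_26dbae_co: numbers of vertices and edges of the linked subdivision
-/

set_option autoImplicit false

open scoped BigOperators

namespace Pool.Agent.helper74.IV

open Pool.Agent.helper23.TH Pool.Agent.KS Pool.Agent.IV

noncomputable section

open Classical

theorem LN : LN_stmt := by
  intro I _ T hub
  refine ⟨?_, ?_, ?_⟩
  · rw [Fintype.card_sum, Fintype.card_subtype, Fintype.card_sigma]
    unfold Tr.ew
    simp only [Fintype.card_fin, Finset.mem_univ, and_true]
    rw [add_comm]
  · show Fintype.card (I ⊕ T.Ed) = _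
    rw [Fintype.card_sum]
  · show Fintype.card ((T.Ed ⊕ T.Ed) ⊕ I) = _
    rw [Fintype.card_sum, Fintype.card_sum]
    ring

end

end Pool.Agent.helper74.IV
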